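import Mathlib
import Pool.Agent.H.MP_5a868e_co.Main

namespace Pool.Agent.Results.MP_5a868e_co.NotPR
open MvPolynomial

/-- `P_d`: nonzero polynomials in countably many variables with coefficients in `ℕ`, zero constant
term and degree at most `d` in each variable. -/
def P (d : ℕ) : Set (MvPolynomial ℕ ℕ) :=
  {p | p ≠ 0 ∧ constantCoeff p = 0 ∧ ∀ i, degreeOf i p ≤ d}

theorem result : ∀ d : ℕ, 2 ≤ d → ∃ (r : ℕ) (c : MvPolynomial ℕ ℕ → Fin r),
    ∀ x y : MvPolynomial ℕ ℕ, x ∈ P d → y ∈ P d → x + y ∈ P d → x * y ∈ P d →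
      ¬ (c x = c y ∧ c x = c (x + y) ∧ c x = c (x * y)) := by
  intro d _
  classical
  let φ : MvPolynomial ℕ ℕ →+* MvPolynomial ℕ ℚ := map (Nat.castRingHom ℚ)
  have hinj : Function.Injective (Nat.castRingHom ℚ) := Nat.cast_injective
  have hφ : Function.Injective φ := map_injective _ hinj
  have hdeg : ∀ i p, degreeOf i (φ p) = degreeOf i p := by
    intro i p
    simp only [φ, degreeOf_eq_sup, support_map_of_injective _ hinj]
  let e := Fintype.equivFin (ZMod (d * (d + 1) + 1) × (Fin (d + 1) → Fin (d + 2)))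
  refine ⟨_, fun p => e (H.MP_5a868e_co.col d (φ p)), ?_⟩
  rintro x y ⟨hx, hx0, -⟩ ⟨hy, -, hdy⟩ ⟨hs, -, hds⟩ ⟨-, -, hdp⟩ ⟨h1, h2, h3⟩
  have n0 : ∀ p, p ≠ 0 → φ p ≠ 0 := fun p hp h => hp (hφ (by simpa using h))
  refine H.MP_5a868e_co.main (d := d) (x := φ x) (y := φ y) (n0 x hx) (n0 y hy)
    (by rw [← map_add]; exact n0 _ hs) ?_ (fun i => by rw [hdeg]; exact hdy i)
    (fun i => by rw [← map_add, hdeg]; exact hds i) (fun i => by rw [← map_mul, hdeg]; exact hdp i)
    (e.injective h1) (by rw [← map_add]; exact e.injective h2)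
    (by rw [← map_mul]; exact e.injective h3)
  obtain ⟨m, hm⟩ := support_nonempty.2 hx
  have hm0 : m ≠ 0 := by
    rintro rfl
    exact (mem_support_iff.1 hm) (by simpa [constantCoeff_eq] using hx0)
  obtain ⟨a, ha⟩ : ∃ a, m a ≠ 0 := by
    by_contra h; push Not at h; exact hm0 (Finsupp.ext h)
  refine ⟨a, ?_⟩
  rw [hdeg]
  have := monomial_le_degreeOf a hm
  omega

end Pool.Agent.Results.MP_5a868e_co.NotPR
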